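import Pool.Agent.Q59.FS.Tate

/-!
# Unramified cohomology in degree three of the varieties dominated by products of Fermat varieties

Let `m` be prime to the prime `p` and let the order `f` of `p` modulo `m` be odd. Let `X` be a product of
Fermat varieties of degree `m`, of arbitrary number and dimensions, over a finite field `𝔽` of
characteristic `p`. We write `H_nr (X)` for the prime to `p` part of `H ^ 3_nr (X, ℚ/ℤ(2))`.

**The functor.** There is an exact sequence `0 → CH ^ 2 (X) → H ^ 4_et (X, ℤ(2)) → H_nr (X) → 0` (up to
`p`-torsion; Lichtenbaum, Kahn, Colliot-Thélène). So `H_nr` is a functor on integral effective Chow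
motives, the Frobenius acts on it as `q ^ 2`, and `H_nr (M ⊗ L) = 0` for the Lefschetz motive `L`. The
quotient of each primary part of `H_nr (X)` by its maximal divisible subgroup is finite, and almost
all of these quotients are zero (Colliot-Thélène, Kahn). Up to bounded factors, and with coefficients in a
cyclotomic ring, the motive of `X` is over a finite extension of `𝔽` a sum of motives `M_s ⊗ L ^ j` with
`M_s` of rank one, where `s` is the character of a tensor product of lines in the primitive cohomology of
some of the factors (Weil, Shioda, Katsura), and it is finite dimensional in the sense of Kimura, so a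
power of `F - α` annihilates `M_s` up to a factor, where `α` is the Jacobi sum of `s`. So only the
`M_s` with `j = 0` and `α = q ^ 2` (over a finite extension) contribute to `H_nr (X)`, up to groups of
finite exponent: `s` is a Tate character of `H ^ 4`, of at most four factors, with at most `12`
entries (four curves have three entries each, one fourfold has six). If the line of `s` is algebraic,
and hence the dual line, then `M_s` is `L ^ 2`, and does not contribute. So `H_nr (X)` is finite, if the
lines of all Tate characters of `H ^ 4` are algebraic. By the transfer the same holds for all smooth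
projective varieties `Y` with a dominant rational map from a product of Fermat varieties of degree `m`.
(Colliot-Thélène and Kahn prove this for the class `B_Tate`, for which all Tate classes are algebraic; here
only `H ^ 4` is needed, so the condition does not depend on the dimensions.)

**Algebraic lines.** The lines of the characters with four entries (surfaces) and of the standard
characters of Aoki are algebraic, and union, removal of a pair `{a, -a}` and passing from the degree
`N * m` to the degree `m` preserve algebraicity (Tate, Shioda, Katsura, Aoki).

For a prime `ℓ` let `size ℓ = ℓ - 1` if `ℓ` is odd, and `size 2 = 2`. The theorem: if for any two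
different primes `ℓ`, `r` one has `4 * f * weight ℓ r s < size ℓ * size r`, where `weight ℓ r s` is
the number of entries of `s` whose order is divisible by `ℓ * r` (by `4 * r` if `ℓ = 2`), entries of
order `2` modulo `4` counted twice, then the Tate character `s` becomes, after raising the degree to
a suitable multiple prime to `p`, a member of the closure of the characters of surfaces and of the
standard characters.

In particular: let `m` be odd, the order `f` of `p` modulo `m` odd, and `(ℓ - 1) (r - 1) > 48 f` for any two
different primes `ℓ`, `r` dividing `m` (no condition for prime powers). Then `H_nr (Y)` is finite for all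
smooth projective varieties `Y` over finite fields of characteristic `p`, of any dimension, which are
dominated by products of Fermat varieties of degree `m`. The Fermat varieties of these degrees are not
supersingular, and no condition on quadratic residues is made.
-/

namespace Pool.Agent.Results.MP_859dd5_ag.DominatedByFermatProducts

open Pool.Agent.H916T

/-- `4` for the prime `2`, and `ℓ` for an odd prime `ℓ`. -/
def level (ℓ : ℕ) : ℕ := if ℓ = 2 then 4 else ℓ

/-- `2` for the prime `2`, and `ℓ - 1` for an odd prime `ℓ`. -/
def size (ℓ : ℕ) : ℕ := if ℓ = 2 then 2 else ℓ - 1

open scoped Classical in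
/-- The number of entries of `s` whose order is divisible by `level ℓ * level r`; entries of order
`2` modulo `4` count twice. -/
noncomputable def weight (ℓ r : ℕ) {m : ℕ} (s : Multiset (ZMod m)) : ℕ :=
  (s.map fun a => if level ℓ * level r ∣ addOrderOf a then
    (if addOrderOf a % 4 = 2 then 2 else 1) else 0).sum

lemma weight_eq (ℓ r : ℕ) {m : ℕ} [NeZero m] (s : Multiset (ZMod m)) :
    ((weight ℓ r s : ℕ) : ℤ) = Pool.Agent.Q59.FS.ww ℓ r s := by
  induction s using Multiset.induction_on with
  | empty => simp [weight, Pool.Agent.Q59.FS.ww]
  | cons a s ih =>
    unfold weight Pool.Agent.Q59.FS.ww at ih ⊢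
    rw [Multiset.map_cons, Multiset.sum_cons, Multiset.map_cons, Multiset.sum_cons, ← ih]
    push_cast
    rfl

/-- Short Tate characters are generated by surfaces and standard characters. -/
theorem result (p m : ℕ) (hp : p.Prime) (hm : 0 < m) (hpm : p.Coprime m)
    (hf : Odd (orderOf (p : ZMod m)))
    (s : Multiset (ZMod m)) (hs : IsTate p m s) (hne : s ≠ 0)
    (hshort : ∀ ℓ r : ℕ, ℓ.Prime → r.Prime → ℓ ≠ r →
      4 * (orderOf (p : ZMod m) * weight ℓ r s) < size ℓ * size r) :
    ∃ N : ℕ, 0 < N ∧ p.Coprime N ∧
      Generated (N * m)
        (fun t => SurfaceTate p (N * m) t ∨ ∃ q : ℕ, q.Prime ∧ q ∣ N * m ∧ Standard q (N * m) t)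
        (s.map fun a => ((N * a.val : ℕ) : ZMod (N * m))) := by
  have : NeZero m := ⟨hm.ne'⟩
  obtain ⟨N, hN, hpN, H⟩ := Pool.Agent.Q59.FS.tate_short hp hpm hf hs hne
    (fun ℓ r hℓ hr hne => by
      have h1 := hshort ℓ r hℓ hr hne
      rw [← weight_eq]
      exact_mod_cast h1)
  exact ⟨N, hN, hpN, H (N * m) rfl⟩

end Pool.Agent.Results.MP_859dd5_ag.DominatedByFermatProducts
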