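import Pool.Agent.Q290.HS.Unr

/-!
# Unramified cohomology of hypersurfaces given by sums of forms in few variables

Let `W` be a smooth hypersurface over the algebraic closure `k` of a finite field of characteristic
`p ≥ 5`, of ARBITRARY dimension, with an equation `f_1 + f_2 + ⋯ + f_r = 0`, where the `f_j` are
forms in disjoint sets of variables. The sum is good (`IsGoodSum`) in each of the following cases:

* the `f_j` are cubic forms in at most three variables, or binary quartic forms (`IsEllipticSum`);
* the degree `d` divides `p ^ ν + 1` for some `ν ≥ 1`, and every `f_j` is a binary form such that the
  curve `f_j(x, y) = u ^ d` is supersingular (or has a Jacobian isogenous to a product of elliptic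
  curves), or is `u ^ d`.

We prove that `H^3_nr(X, ℚ/ℤ(2))` is finite for all smooth projective varieties `X` over finite
fields of characteristic `p` which are birational to an image of a product of such hypersurfaces and
of elliptic curves.
-/

open CategoryTheory MonoidalCategory

universe v u w

namespace Pool.Agent.Results.MP_859dd5_ag.SumsOfGoodForms

open Pool.Agent.Q28.HJ Pool.Agent.Q290.HS

/-- **Finiteness of `H^3_nr` for sums of good forms.** Let `T` be the Chow motives over the algebraic
closure `k` of a finite field of characteristic at least five (`hT`: known facts).

(1) Sums of cubic forms in at most three variables, and sums of binary quartic forms, are sums of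
good forms.

(2) Let `Y` be a smooth projective variety over a finite subfield of `k` such that the motive of
`Y_k` is obtained by tensor products, direct sums, direct summands and Tate twists from the motives
`h^1(E)` of elliptic curves and the motives of smooth hypersurfaces which are sums of good forms; for
example, such that `Y_k` is a product of elliptic curves and of such hypersurfaces. Let `X` be a smooth
projective variety over a finite subfield with a surjective morphism from `Y_k` to `X_k`. Then
`H^3_nr(X', ℚ/ℤ(2))` is finite for all smooth projective `X'` birational to `X`. -/
theorem result {𝓜 : Type u} [Category.{v} 𝓜] [Preadditive 𝓜] [MonoidalCategory 𝓜]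
    {T : UnrData.{v, u, w} 𝓜} (hT : T.Facts) :
    (∀ W : T.Hyp, T.IsEllipticSum W → IsGoodSum T.toJoinData T.Ell T.p W) ∧
    ∀ Y X X' : T.Var, GenBy T.L T.Basic (T.motV Y) → T.Onto Y X → T.Birat X X' →
      Finite (T.H3 X') :=
  ⟨fun _ hW => elliptic_good hT.core hT.elliptic hW,
    fun _ _ _ hY hYX hX => UnrData.final hT hY hYX hX⟩

end Pool.Agent.Results.MP_859dd5_ag.SumsOfGoodForms
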