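import Mathlib
import Pool.Agent.Q124.UN.Main
import Pool.Agent.Q124.Lay.Count

/-!
# Finiteness of the unramified cohomology of degree three for products of abelian varieties and
arbitrary varieties over finite fields

Fix a prime `p`, a nonempty finite set `κ`, dimensions `g i ≥ 1` and, for each `i`, a symmetric
Newton polygon with slopes `s i j` and `1 - s i j` (`j < g i`, increasing in `j`, between `0` and
`1 / 2`, with integral break points: `IsPolygon (s i)`) whose smallest slope is at most `σ < 1 / 2`;
so it is any Newton polygon that is not the supersingular one. `NewtonStratum g s p a` is the set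
of families of isogeny classes of abelian varieties `A_i` of dimension `g i` over the field with
`p ^ a` elements having these Newton polygons (by the theorem of Honda and Tate it consists of
families of characteristic polynomials of Frobenius). Let `devSum (s i)`, `sqSum (s i)` be the sums of
the numbers `1 - 2 s i j` and of their squares, and let `0 < δ ≤ 1`, `δ₂ > 0` be numbers such that
`δ g i ≤ devSum (s i)` and `δ₂ g i ≤ sqSum (s i)` for all `i`. So `δ = δ₂ = 1` if the `A_i` are
ordinary.

We prove that the number of elements of `NewtonStratum g s p a` tends to infinity with `a`, and that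
for all members, except for at most

  `C * a * p ^ (- a (1 - 2 σ) / 6) * |NewtonStratum g s p a|`

(`C` depends on `p`, `g`, `s`, `σ` only), the following is true.

Let `k` be the field with `Q = p ^ (a s')` elements, for any `s' > 0`. Let `A` be an abelian variety
over `k` which is isogenous to a product of powers of the `A_i`, of any dimension, let `X` be an
abelian variety of this kind in which all `A_i` occur, for instance the product of the `A_i`, and let
`Z` be a smooth projective variety over `k` such that the homologically trivial self-correspondences of
degree zero of `Z` are nilpotent (`Nilpotence`; by Kimura and O'Sullivan this is so for all curves and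
for all varieties dominated by products of curves, and it is conjectured for all `Z`). Nothing is
assumed on relations between the Frobenius eigenvalues of `Z` and of `A`, and the exceptional set is
independent of `Z`.

**Theorem** (`UnramifiedTheorem`): the group `H ^ 3_nr (V, ℚ/ℤ(2))` is finite for all smooth projective
varieties `V` over `k` for which there is a surjective morphism `A × Z → V`, in each of the following
cases.

* `δ > 1 / 3` and `Z` is a curve, or a surface such that each Frobenius eigenvalue `ρ` on `H ^ 2 (Z)` has
  its slopes in `(1 - δ, 1 + δ)`, or the mean of `(λ - 1) ^ 2`, `λ` the slopes of the conjugates of `ρ`, is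
  smaller than `δ₂ / 2`. Nothing else is assumed, in particular not the Tate conjecture for the
  surface `Z`. For instance, if the `A_i` are ordinary, `Z` can be any surface dominated by a product of
  curves such that the slope `0` does not occur on `H ^ 2 (Z)`.
* `δ > 1 / 3`, `Z` has any dimension `d`, rational and numerical equivalence coincide for cycles of
  codimension two on `Z` (with rational coefficients), and the slopes on `H ^ w (Z)`, `1 < w < 2 d - 1`,
  have similar properties (`IsNarrow`).
* `Z` has level at most `e`, that is, the slopes on `H ^ w (Z)` lie between `(w - e) / 2` and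
  `(w + e) / 2` (`e = dim Z` is always possible), `n` is a number with `(n + 1) δ > e`, and rational and
  numerical equivalence coincide for cycles of codimension two on `X ^ n × Z`, or
  `2 dim Z + n < 4 + ⌊e⌋`.

As `H ^ 3_nr (V, ℚ/ℤ(2))` is a birational invariant, it is finite as well for all smooth projective
varieties birational to `V`.

The formal statement. `𝒱` is a class of smooth projective varieties closed under products, `C` are
their Chow groups with rational coefficients, `H` is a Weil cohomology theory with coefficients in an
algebraically closed field of characteristic zero (for instance `ℓ`-adic cohomology with coefficients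
extended to an algebraic closure of `ℚ_ℓ`). `UnramifiedData` consists of the groups `CH ^ 2 (Y)`,
`H ^ 4 (Y_ét, ℤ(2))` and `H ^ 3_nr (Y, ℚ/ℤ(2))`, and `IsUnramified` lists the known facts on these groups:
the exact sequence of Lichtenbaum and Kahn which connects them, the finiteness of the torsion of
`H ^ 4 (Y_ét, ℤ(2))` (Colliot-Thélène, Sansuc, Soulé; Gros, Suwa), intersection numbers, and the facts
that rational and numerical equivalence coincide for divisors (Matsusaka) and for zero-cycles
(Bloch; Kato, Saito). `IsTripleFor`, with an abelian variety `B` in the place of `X ^ n`, lists known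
facts on `A`, `B` and `Z`: the cohomology of `A`, `B`, `A × A`, `A × B` is generated by `H ^ 1`, where
Frobenius has the given eigenvalues, and the theorem of Tate on divisors on them; the nilpotence for
`A` (Kimura, Shermenev), and for `Z`. `HasInverse` (the isomorphism `H ^ (2 d - 1) (Z) → H ^ 1 (Z)` is
given by a divisor on `Z × Z`) is known for all `Z` (Kleiman).

The proof. The numerically trivial cycles are a theory `T` on which correspondences act, and such that
Frobenius acts on the part of codimension `c` as multiplication by `Q ^ c`. For such a theory `T`, the
vanishing of `T ^ c (A × Z)` follows from the vanishing of `T ^ c' (X ^ n × Z)`, `c' ≤ c` (this is the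
machine of MP_de59b4_ag UniversalFactor). For `c = 2` the groups with `c' ≤ 1` vanish by the theorem of
Matsusaka. For narrow `Z` it is sufficient to know that `T ^ 1 (X × Z)` and `T ^ c' (Z)`, `c' ≤ 2`, vanish.
So rational and numerical equivalence coincide for cycles of codimension two on `A × Z`, hence on `V`.
Then the kernel of the intersection pairing on `H ^ 4 (V_ét, ℤ(2))` is the torsion subgroup, so that
this group is finitely generated, and its quotient `H ^ 3_nr (V, ℚ/ℤ(2))`, a torsion group, is finite.
-/

set_option autoImplicit false

namespace Pool.Agent.Results.MP_859dd5_ag.UniversalFactor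

open Polynomial Pool.Agent.Q124.Lay Pool.Agent.Q124.UN

/-- The theorem for the family of isogeny classes over the field with `q` elements with the
Frobenius polynomials `F i`, of dimension `g i` and slopes `s i j`. -/
def Holds {κ : Type} (g : κ → ℕ) (s : ∀ i, Fin (g i) → ℚ) (q : ℕ) (F : κ → ℤ[X]) : Prop :=
  ∀ δ δ₂ : ℝ, 0 < δ → δ ≤ 1 → 0 < δ₂ → (∀ i, δ * g i ≤ devSum (s i)) →
    (∀ i, δ₂ * g i ≤ sqSum (s i)) →
    UnramifiedTheorem δ δ₂ q F

/-- **Finiteness of `H ^ 3_nr (A × Z, ℚ/ℤ(2))` for the abelian varieties `A` outside of a thin subset
of a Newton stratum.** -/
theorem result {κ : Type} [Fintype κ] [Nonempty κ] (p : ℕ) [Fact p.Prime]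
    -- dimensions and Newton polygons
    (g : κ → ℕ) (hg : ∀ i, 1 ≤ g i) (s : ∀ i, Fin (g i) → ℚ) (hs : ∀ i, IsPolygon (s i))
    -- the smallest slopes
    (σ : ℚ) (hσ : ∀ i (h : 0 < g i), s i ⟨0, h⟩ ≤ σ) (hσ2 : σ < 1 / 2) :
    (∀ N : ℕ, ∃ a₀ : ℕ, ∀ a, a₀ ≤ a →
      (NewtonStratum g s p a).Finite ∧ N ≤ (NewtonStratum g s p a).ncard) ∧
    ∃ C : ℝ, 0 < C ∧ ∀ a : ℕ, 0 < a →
      ({F ∈ NewtonStratum g s p a | ¬ Holds g s (p ^ a) F}.ncard : ℝ) ≤
        C * (a * (p : ℝ) ^ (-((a : ℝ) * (1 - 2 * σ) / 6))) *
          ((NewtonStratum g s p a).ncard : ℝ) :=
  count p g hg s hs σ hσ hσ2 (fun δ δ₂ q F => UnramifiedTheorem δ δ₂ q F)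
    fun _ _ _ _ hq hδ0 hδ1 hδ₂ hB hM =>
    unramifiedTheorem hB hM hδ0 hδ1 hδ₂ hq

end Pool.Agent.Results.MP_859dd5_ag.UniversalFactor
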